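import Pool.Agent.H964.SP.Gsp

/-!
# Exponential moments on sign events
-/

set_option autoImplicit false

namespace Pool.Agent.H964

open MeasureTheory ProbabilityTheory Real Filter Topology
open Pool.Agent.Y980
open scoped ENNReal NNReal

variable {Ω : Type*} [MeasurableSpace Ω] {P : Measure Ω} {h : ℝ → ℂ → Ω → ℝ}
variable (hh : IsGFF P h)

/-- the indicator of `σ x ≤ 0` -/
noncomputable def ind (σ x : ℝ) : ℝ≥0∞ := Set.indicator {x : ℝ | σ * x ≤ 0} (fun _ => 1) x

theorem ind_measurable (σ : ℝ) : Measurable (ind σ) :=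
  measurable_const.indicator (measurableSet_le (measurable_const_mul σ) measurable_const)

theorem ind_of_le {σ x : ℝ} (h : σ * x ≤ 0) : ind σ x = 1 := by
  unfold ind; rw [Set.indicator_of_mem (show x ∈ {x : ℝ | σ * x ≤ 0} from h)]

theorem ind_of_not_le {σ x : ℝ} (h : ¬ σ * x ≤ 0) : ind σ x = 0 := by
  unfold ind; rw [Set.indicator_of_notMem (show x ∉ {x : ℝ | σ * x ≤ 0} from h)]

include hh in
theorem lint_exp_AA {Y : Lp ℝ 2 P} (hY : Y ∈ AA hh) (c : ℝ) :
    ∫⁻ ω, ENNReal.ofReal (exp (c * Y ω)) ∂P = ENNReal.ofReal (exp (c ^ 2 * ‖Y‖ ^ 2 / 2)) := by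
  have hlaw := law_AA hh hY
  have hm := (Lp.aestronglyMeasurable Y).aemeasurable
  have hi : Integrable (fun ω => exp (c * Y ω)) P := by
    have h1 : Integrable (fun x => exp (c * x)) (P.map Y) := by
      rw [hlaw]; exact integrable_exp_mul_gaussianReal c
    exact (integrable_map_measure (by fun_prop) hm).1 h1
  rw [← ofReal_integral_eq_lintegral_ofReal hi (Eventually.of_forall fun _ => (exp_pos _).le)]
  have := mgf_gaussianReal hlaw c
  rw [mgf] at this
  rw [this, Real.coe_toNNReal _ (by positivity)]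
  congr 2
  ring

include hh in
theorem lint_exp_ind_AA {Y : Lp ℝ 2 P} (hY : Y ∈ AA hh) (h0 : Y ≠ 0) (c σ : ℝ) (hσ : σ = 1 ∨ σ = -1) :
    ∫⁻ ω, ENNReal.ofReal (exp (c * Y ω)) * ind σ (Y ω) ∂P = ENNReal.ofReal (psi (σ * (c * ‖Y‖)) / 2) := by
  have hlaw := law_AA hh hY
  have hm := (Lp.aestronglyMeasurable Y).aemeasurable
  have hn : 0 < ‖Y‖ := norm_pos_iff.2 h0
  have e1 : ∫⁻ ω, ENNReal.ofReal (exp (c * Y ω)) * ind σ (Y ω) ∂P =
      ∫⁻ x, ENNReal.ofReal (exp (c * x)) * ind σ x ∂(P.map Y) := by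
    rw [lintegral_map' _ hm]
    apply AEMeasurable.mul
    · fun_prop
    · exact (ind_measurable σ).aemeasurable
  have e2 : gaussianReal 0 (‖Y‖ ^ 2).toNNReal = (gaussianReal 0 1).map (fun x => ‖Y‖ * x) := by
    rw [gaussianReal_map_const_mul, mul_zero, mul_one]
    congr 1
    ext
    rw [Real.coe_toNNReal _ (by positivity)]
    rfl
  rw [e1, hlaw, e2, lintegral_map _ (by fun_prop), ← half_psi σ (c * ‖Y‖) hσ]
  · apply lintegral_congr
    intro x
    rw [show c * (‖Y‖ * x) = c * ‖Y‖ * x by ring]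
    congr 1
    by_cases hx : σ * x ≤ 0
    · have h1 : σ * (‖Y‖ * x) ≤ 0 := by
        have : σ * (‖Y‖ * x) = ‖Y‖ * (σ * x) := by ring
        rw [this]
        exact mul_nonpos_of_nonneg_of_nonpos hn.le hx
      rw [ind_of_le h1, Set.indicator_of_mem (show x ∈ {x | σ * x ≤ 0} from hx)]
    · have h1 : ¬ σ * (‖Y‖ * x) ≤ 0 := by
        have : σ * (‖Y‖ * x) = ‖Y‖ * (σ * x) := by ring
        rw [this, not_le]
        exact mul_pos hn (not_le.1 hx)
      rw [ind_of_not_le h1, Set.indicator_of_notMem (show x ∉ {x | σ * x ≤ 0} from hx)]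
  · have := ind_measurable σ
    fun_prop

include hh in
/-- the exponential moment of an element of the Gaussian space on a sign event -/
theorem branch {k : ℕ} {G : ℕ → Lp ℝ 2 P} {sg : ℕ → ℝ} (hG : ∀ j < k, G j ∈ AA hh)
    (hne : ∀ j < k, G j ≠ 0) (ho : ∀ i < k, ∀ j < k, i ≠ j → inner ℝ (G i) (G j) = 0)
    (hsg : ∀ j < k, sg j = 1 ∨ sg j = -1) {H : Lp ℝ 2 P} (hH : H ∈ AA hh) (ξ : ℝ) :
    ∫⁻ ω, ENNReal.ofReal (exp (ξ * H ω)) * ∏ j ∈ Finset.range k, ind (sg j) (G j ω) ∂P ≤
      ENNReal.ofReal (exp (ξ ^ 2 * ‖H‖ ^ 2 / 2)) *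
        ∏ j ∈ Finset.range k, ENNReal.ofReal (psi (ξ * (sg j * inner ℝ H (G j)) / ‖G j‖) / 2) := by
  set β : ℕ → ℝ := fun j => inner ℝ H (G j) / ‖G j‖ ^ 2 with hβ
  set H' : Lp ℝ 2 P := H - ∑ j : Fin k, β j • G j with hH'
  have hH'A : H' ∈ AA hh := Submodule.sub_mem _ hH
    (Submodule.sum_mem _ fun j _ => Submodule.smul_mem _ _ (hG j j.2))
  have hpos : ∀ j < k, 0 < ‖G j‖ := fun j hj => norm_pos_iff.2 (hne j hj)
  have horth : ∀ j < k, inner ℝ H' (G j) = 0 := by
    intro j hj
    rw [hH', inner_sub_left, sum_inner, Finset.sum_eq_single (⟨j, hj⟩ : Fin k)]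
    · rw [real_inner_smul_left, real_inner_self_eq_norm_sq, hβ]
      have := hpos j hj
      field_simp
      ring
    · intro i _ hi
      rw [real_inner_smul_left, ho i i.2 j hj (fun h => hi (Fin.ext h)), mul_zero]
    · intro h; exact absurd (Finset.mem_univ _) h
  have hnorm : ‖H'‖ ≤ ‖H‖ := by
    have h1 : inner ℝ H' H = ‖H'‖ ^ 2 := by
      have h2 : inner ℝ H' H = inner ℝ H' (H' + ∑ j : Fin k, β j • G j) := by
        congr 1; rw [hH']; abel
      rw [h2, inner_add_right, inner_sum, real_inner_self_eq_norm_sq]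
      have : ∑ j : Fin k, inner ℝ H' (β j • G j) = 0 := by
        apply Finset.sum_eq_zero
        intro j _
        rw [real_inner_smul_right, horth j j.2, mul_zero]
      rw [this, add_zero]
    have h3 := real_inner_le_norm H' H
    rw [h1, sq] at h3
    rcases (norm_nonneg H').eq_or_lt with h | h
    · rw [← h]; exact norm_nonneg _
    · exact le_of_mul_le_mul_left h3 h
  -- the independent family
  set F : Fin (k + 1) → Lp ℝ 2 P := Fin.cons H' (fun j => G j) with hF
  have hFA : ∀ i, F i ∈ AA hh := by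
    intro i
    refine Fin.cases ?_ (fun j => ?_) i
    · exact hH'A
    · exact hG j j.2
  have hFo : ∀ i j, i ≠ j → inner ℝ (F i) (F j) = 0 := by
    intro i
    refine Fin.cases ?_ (fun i' => ?_) i
    · intro j
      refine Fin.cases ?_ (fun j' => ?_) j
      · intro h; exact absurd rfl h
      · intro _; exact horth j' j'.2
    · intro j
      refine Fin.cases ?_ (fun j' => ?_) j
      · intro _
        have := horth i' i'.2
        rw [real_inner_comm] at this
        exact this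
      · intro h
        exact ho i' i'.2 j' j'.2 (fun h2 => h (by rw [Fin.ext h2]))
  have hind := indep_AA hh hFA hFo
  set φ : Fin (k + 1) → ℝ → ℝ≥0∞ := Fin.cons (fun x => ENNReal.ofReal (exp (ξ * x)))
    (fun j x => ENNReal.ofReal (exp (ξ * β j * x)) * ind (sg j) x) with hφ
  have hφm : ∀ i, Measurable (φ i) := by
    intro i
    refine Fin.cases ?_ (fun j => ?_) i
    · simp only [hφ, Fin.cons_zero]; fun_prop
    · simp only [hφ, Fin.cons_succ]
      have := ind_measurable (sg j)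
      fun_prop
  have hind2 := hind.comp φ hφm
  have hprod := lintegral_prod_eq_prod_lintegral_of_indepFun Finset.univ
    (fun i => φ i ∘ fun ω => F i ω) hind2 (fun i => (hφm i).comp (Lp.stronglyMeasurable (F i)).measurable)
  have hpoint : ∀ᵐ ω ∂P, ENNReal.ofReal (exp (ξ * H ω)) * ∏ j ∈ Finset.range k, ind (sg j) (G j ω) =
      ∏ i : Fin (k + 1), (φ i ∘ fun ω => F i ω) ω := by
    have h2 : H = H' + ∑ j : Fin k, β j • G j := by rw [hH']; abel
    filter_upwards [Lp.coeFn_add H' (∑ j : Fin k, β j • G j),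
      coe_sum_smul (fun j : Fin k => β j) (fun j : Fin k => G j)] with ω e1 e2
    have e3 : H ω = H' ω + ∑ j : Fin k, β j * G j ω := by
      nth_rewrite 1 [h2]
      rw [e1, Pi.add_apply, e2]
    rw [Fin.prod_univ_succ]
    simp only [hφ, hF, Function.comp_apply, Fin.cons_zero, Fin.cons_succ]
    rw [Finset.prod_mul_distrib, ← ENNReal.ofReal_prod_of_nonneg (fun _ _ => (exp_pos _).le),
      ← Real.exp_sum, ← mul_assoc, ← ENNReal.ofReal_mul (exp_pos _).le, ← Real.exp_add, e3,
      ← Fin.prod_univ_eq_prod_range (fun j => ind (sg j) (G j ω)) k]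
    congr 3
    rw [mul_add, Finset.mul_sum]
    congr 1
    apply Finset.sum_congr rfl
    intro j _
    ring
  rw [lintegral_congr_ae hpoint, hprod, Fin.prod_univ_succ]
  simp only [hφ, hF, Function.comp_apply, Fin.cons_zero, Fin.cons_succ]
  rw [lint_exp_AA hh hH'A ξ, ← Fin.prod_univ_eq_prod_range
    (fun j => ENNReal.ofReal (psi (ξ * (sg j * inner ℝ H (G j)) / ‖G j‖) / 2)) k]
  apply mul_le_mul'
  · apply ENNReal.ofReal_le_ofReal
    gcongr
  · apply Finset.prod_le_prod'
    intro j _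
    rw [lint_exp_ind_AA hh (hG j j.2) (hne j j.2) _ _ (hsg j j.2)]
    apply le_of_eq
    congr 3
    have := hpos j j.2
    rw [hβ]
    field_simp

end Pool.Agent.H964
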