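import Pool.Agent.H964.SP.Pot
import Pool.Agent.H964.LF.SG

/-!
# The Gaussian space of the field
-/

set_option autoImplicit false

namespace Pool.Agent.H964

open MeasureTheory ProbabilityTheory Real Filter Topology
open Pool.Agent.Y980
open scoped ENNReal NNReal

variable {Ω : Type*} [MeasurableSpace Ω] {P : Measure Ω} {h : ℝ → ℂ → Ω → ℝ}

section

variable (hh : IsGFF P h)

/-- all the circle averages -/
noncomputable def HHa (p : Set.Ioi (0 : ℝ) × ℂ) : Lp ℝ 2 P := HH hh (Set.mem_Ioi.1 p.1.2) p.2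

theorem HHa_coe (p : Set.Ioi (0 : ℝ) × ℂ) : (HHa hh p : Ω → ℝ) =ᵐ[P] h p.1 p.2 := HH_coe hh _ _

/-- the closed span of all the circle averages -/
noncomputable def AA : Submodule ℝ (Lp ℝ 2 P) :=
  (Submodule.span ℝ (Set.range (HHa hh))).topologicalClosure

theorem HH_mem_AA {r : ℝ} (hr : 0 < r) (z : ℂ) : HH hh hr z ∈ AA hh :=
  Submodule.le_topologicalClosure _ (Submodule.subset_span ⟨(⟨⟨r, hr⟩, z⟩ : Set.Ioi (0 : ℝ) × ℂ), rfl⟩)

theorem TT_mem_AA {r : ℝ} (hr : 0 < r) (z : ℂ) : TT hh hr z ∈ AA hh :=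
  Submodule.sub_mem _ (HH_mem_AA hh hr z) (HH_mem_AA hh _ z)

theorem XX_mem_AA {r : ℝ} (hr : 0 < r) (a b : ℂ) : XX hh hr a b ∈ AA hh := by
  rw [XX, intervalIntegral.integral_of_le (by norm_num)]
  have := prob01
  have hcl : IsClosed (AA hh : Set (Lp ℝ 2 P)) := by
    unfold AA; exact Submodule.isClosed_topologicalClosure _
  apply Convex.integral_mem (AA hh).convex hcl
  · exact Eventually.of_forall fun t => HH_mem_AA hh hr _
  · have := (HH_pt_continuous hh hr a b).intervalIntegrable (μ := volume) 0 1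
    rwa [intervalIntegrable_iff_integrableOn_Ioc_of_le (by norm_num)] at this

theorem YY_mem_AA {r : ℝ} (hr : 0 < r) (a b : ℂ) : YY hh hr a b ∈ AA hh :=
  Submodule.sub_mem _ (XX_mem_AA hh hr a b) (XX_mem_AA hh _ a b)

theorem spanA_rep {Y : Lp ℝ 2 P} (hY : Y ∈ Submodule.span ℝ (Set.range (HHa hh))) :
    ∃ f : (Set.Ioi (0 : ℝ) × ℂ) →₀ ℝ,
      (Y : Ω → ℝ) =ᵐ[P] lin (fun p : Set.Ioi (0 : ℝ) × ℂ => h p.1 p.2) f := by
  rw [Finsupp.mem_span_range_iff_exists_finsupp] at hY
  obtain ⟨f, rfl⟩ := hY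
  refine ⟨f, ?_⟩
  have h1 : ∀ s : Finset (Set.Ioi (0 : ℝ) × ℂ), ((∑ z ∈ s, f z • HHa hh z : Lp ℝ 2 P) : Ω → ℝ) =ᵐ[P]
      fun ω => ∑ z ∈ s, f z * h z.1 z.2 ω := by
    intro s
    classical
    induction s using Finset.induction_on with
    | empty =>
      simp only [Finset.sum_empty]
      exact Lp.coeFn_zero _ _ _
    | insert a s ha ih =>
      rw [Finset.sum_insert ha]
      filter_upwards [Lp.coeFn_add (f a • HHa hh a) (∑ z ∈ s, f z • HHa hh z),
        Lp.coeFn_smul (f a) (HHa hh a), ih, HHa_coe hh a] with ω e1 e2 e3 e4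
      rw [e1, Pi.add_apply, e2, e3, Pi.smul_apply, e4, Finset.sum_insert ha, smul_eq_mul]
  have h2 := h1 f.support
  filter_upwards [h2] with ω hω
  rw [Finsupp.sum, hω]
  rfl

theorem linA_mean (hh : IsGFF P h) (f : (Set.Ioi (0 : ℝ) × ℂ) →₀ ℝ) :
    ∫ ω, lin (fun p : Set.Ioi (0 : ℝ) × ℂ => h p.1 p.2) f ω ∂P = 0 := by
  have := gff_prob hh
  unfold lin Finsupp.sum
  rw [integral_finsetSum]
  · apply Finset.sum_eq_zero
    intro z _
    rw [integral_const_mul, hh.mean z.1 z.2 z.1.2, mul_zero]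
  · intro z _
    exact ((gff_memLp hh z.1.2 z.2).integrable one_le_two).const_mul _

theorem law_span {Y : Lp ℝ 2 P} (hY : Y ∈ Submodule.span ℝ (Set.range (HHa hh))) :
    P.map Y = gaussianReal 0 (‖Y‖ ^ 2).toNNReal := by
  have := gff_prob hh
  obtain ⟨f, hf⟩ := spanA_rep hh hY
  have hg := (isGaussianProcess_lin hh.gaussian).hasGaussianLaw_eval f
  have hmean := linA_mean hh f
  have e2 : ‖Y‖ ^ 2 = ∫ ω, (lin (fun p : Set.Ioi (0 : ℝ) × ℂ => h p.1 p.2) f ω) ^ 2 ∂P := by
    rw [← real_inner_self_eq_norm_sq, L2.inner_def]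
    apply integral_congr_ae
    filter_upwards [hf] with ω hω
    rw [hω]
    simp [sq]
  rw [Measure.map_congr hf, hg.map_eq_gaussianReal, hmean, e2, variance_eq_sub hg.memLp_two, hmean]
  simp

/-- the law of the elements of the Gaussian space -/
theorem law_AA {Y : Lp ℝ 2 P} (hY : Y ∈ AA hh) : P.map Y = gaussianReal 0 (‖Y‖ ^ 2).toNNReal := by
  have hprob := gff_prob hh
  have hY' : Y ∈ closure (Submodule.span ℝ (Set.range (HHa hh)) : Set (Lp ℝ 2 P)) := by
    rw [← Submodule.topologicalClosure_coe]; exact hY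
  obtain ⟨y, hy, hlim⟩ := mem_closure_iff_seq_limit.1 hY'
  obtain ⟨φ, hφ, hae⟩ := (tendstoInMeasure_of_tendsto_Lp hlim).exists_seq_tendsto_ae
  have mY : ∀ Z : Lp ℝ 2 P, AEMeasurable Z P := fun Z => (Lp.aestronglyMeasurable Z).aemeasurable
  have hprobY : ∀ Z : Lp ℝ 2 P, IsProbabilityMeasure (P.map Z) := fun Z =>
    Measure.isProbabilityMeasure_map (mY Z)
  have := hprobY Y
  apply Measure.ext_of_charFun
  ext t
  have hchar : ∀ Z : Lp ℝ 2 P, charFun (P.map Z) t = ∫ ω, Complex.exp (t * Z ω * Complex.I) ∂P := by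
    intro Z
    rw [charFun_apply_real, integral_map (mY Z) (by fun_prop)]
  have hlim1 : Tendsto (fun n => charFun (P.map (y (φ n))) t) atTop (𝓝 (charFun (P.map Y) t)) := by
    simp only [hchar]
    apply tendsto_integral_of_dominated_convergence (fun _ => (1 : ℝ))
    · intro n
      have := mY (y (φ n))
      exact (Complex.measurable_exp.comp_aemeasurable
        (((Complex.measurable_ofReal.comp_aemeasurable this).const_mul _).mul_const _)).aestronglyMeasurable
    · exact integrable_const _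
    · intro n
      apply Eventually.of_forall
      intro ω
      rw [← Complex.ofReal_mul, Complex.norm_exp_ofReal_mul_I]
    · filter_upwards [hae] with ω hω
      have hc : Continuous fun x : ℝ => Complex.exp (t * x * Complex.I) := by fun_prop
      exact (hc.tendsto _).comp hω
  have hlim2 : Tendsto (fun n => charFun (P.map (y (φ n))) t) atTop
      (𝓝 (charFun (gaussianReal 0 (‖Y‖ ^ 2).toNNReal) t)) := by
    have e : ∀ n, charFun (P.map (y (φ n))) t = Complex.exp (t * (0 : ℝ) * Complex.I -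
        ((‖y (φ n)‖ ^ 2 : ℝ) : ℂ) * t ^ 2 / 2) := by
      intro n
      rw [law_span hh (hy _), charFun_gaussianReal]
      simp
    have e' : charFun (gaussianReal 0 (‖Y‖ ^ 2).toNNReal) t = Complex.exp (t * (0 : ℝ) * Complex.I -
        ((‖Y‖ ^ 2 : ℝ) : ℂ) * t ^ 2 / 2) := by
      rw [charFun_gaussianReal]
      simp
    simp only [e, e']
    have hc : Continuous fun x : ℝ => Complex.exp (t * (0 : ℝ) * Complex.I - (x : ℂ) * t ^ 2 / 2) := by
      fun_prop
    exact (hc.tendsto _).comp ((hlim.comp hφ.tendsto_atTop).norm.pow 2)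
  exact tendsto_nhds_unique hlim1 hlim2

theorem mean_AA {Y : Lp ℝ 2 P} (hY : Y ∈ AA hh) : ∫ ω, Y ω ∂P = 0 := by
  have e : ∫ ω, Y ω ∂P = ∫ x, x ∂(P.map Y) := by
    rw [integral_map (Lp.aestronglyMeasurable Y).aemeasurable (by fun_prop)]
  rw [e, law_AA hh hY, integral_id_gaussianReal]

theorem coe_sum_smul {n : ℕ} (c : Fin n → ℝ) (Y : Fin n → Lp ℝ 2 P) :
    ((∑ i, c i • Y i : Lp ℝ 2 P) : Ω → ℝ) =ᵐ[P] fun ω => ∑ i, c i * Y i ω := by
  have h1 : ∀ s : Finset (Fin n), ((∑ i ∈ s, c i • Y i : Lp ℝ 2 P) : Ω → ℝ) =ᵐ[P]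
      fun ω => ∑ i ∈ s, c i * Y i ω := by
    intro s
    classical
    induction s using Finset.induction_on with
    | empty =>
      simp only [Finset.sum_empty]
      exact Lp.coeFn_zero _ _ _
    | insert a s ha ih =>
      rw [Finset.sum_insert ha]
      filter_upwards [Lp.coeFn_add (c a • Y a) (∑ i ∈ s, c i • Y i), Lp.coeFn_smul (c a) (Y a), ih]
        with ω e1 e2 e3
      rw [e1, Pi.add_apply, e2, e3, Pi.smul_apply, Finset.sum_insert ha, smul_eq_mul]
  exact h1 _

theorem hasGaussianLaw_AA {n : ℕ} {Y : Fin n → Lp ℝ 2 P} (hY : ∀ i, Y i ∈ AA hh) :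
    HasGaussianLaw (fun ω i => Y i ω) P := by
  constructor
  apply isGaussian_of_map_eq_gaussianReal
  intro L
  have hm : Measurable fun ω => fun i => Y i ω :=
    measurable_pi_lambda _ fun i => (Lp.stronglyMeasurable (Y i)).measurable
  set Z : Lp ℝ 2 P := ∑ i, (L (Pi.single i 1)) • Y i with hZ
  have hZA : Z ∈ AA hh := Submodule.sum_mem _ fun i _ => Submodule.smul_mem _ _ (hY i)
  refine ⟨0, (‖Z‖ ^ 2).toNNReal, ?_⟩
  rw [Measure.map_map L.measurable hm, ← law_AA hh hZA]
  apply Measure.map_congr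
  filter_upwards [coe_sum_smul (fun i => L (Pi.single i 1)) Y] with ω hω
  rw [hZ, hω]
  simp only [Function.comp_apply]
  have e : (fun i => Y i ω) = ∑ i, (Y i ω) • (Pi.single i (1 : ℝ) : Fin n → ℝ) := by
    ext j
    simp [Finset.sum_apply, Pi.single_apply]
  rw [e, map_sum]
  apply Finset.sum_congr rfl
  intro i _
  rw [map_smul, smul_eq_mul, mul_comm]

theorem indep_AA {n : ℕ} {Y : Fin n → Lp ℝ 2 P} (hY : ∀ i, Y i ∈ AA hh)
    (ho : ∀ i j, i ≠ j → inner ℝ (Y i) (Y j) = 0) : iIndepFun (fun i ω => Y i ω) P := by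
  have hprob := gff_prob hh
  apply (hasGaussianLaw_AA hh hY).iIndepFun_of_covariance_eq_zero
  intro i j hij
  rw [covariance_eq_sub (Lp.memLp _) (Lp.memLp _), mean_AA hh (hY i), zero_mul, sub_zero]
  rw [← ho i j hij, L2.inner_def]
  apply integral_congr_ae
  apply Eventually.of_forall
  intro ω
  simp [mul_comm]

end

/-! ### one-dimensional Gaussian integrals -/

/-- `E exp (- a |N|)` -/
noncomputable def psi (a : ℝ) : ℝ := ∫ x, exp (-(a * |x|)) ∂(gaussianReal 0 1)

theorem psi_int (a : ℝ) : Integrable (fun x => exp (-(a * |x|))) (gaussianReal 0 1) := by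
  have h1 : Integrable (fun x => exp (a * x) + exp (-a * x)) (gaussianReal 0 1) :=
    (integrable_exp_mul_gaussianReal a).add (integrable_exp_mul_gaussianReal (-a))
  apply h1.mono' (by fun_prop)
  apply Eventually.of_forall
  intro x
  rw [Real.norm_of_nonneg (exp_pos _).le]
  rcases abs_cases x with ⟨h, _⟩ | ⟨h, _⟩
  · rw [h]
    have e : -(a * x) = -a * x := by ring
    rw [e]; linarith [exp_pos (a * x)]
  · rw [h]
    have e : -(a * -x) = a * x := by ring
    rw [e]; linarith [exp_pos (-a * x)]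

theorem psi_pos (a : ℝ) : 0 < psi a := by
  unfold psi
  exact integral_exp_pos (psi_int a)

theorem psi_one_lt : psi 1 < 1 := by
  have hint : Integrable (fun x => 1 - exp (-(1 * |x|))) (gaussianReal 0 1) :=
    (integrable_const _).sub (psi_int 1)
  have hnn : 0 ≤ fun x : ℝ => 1 - exp (-(1 * |x|)) := by
    intro x
    have h1 : exp (-(1 * |x|)) ≤ 1 := by
      rw [Real.exp_le_one_iff]
      have := abs_nonneg x
      linarith
    simpa using h1
  have hpos := (integral_pos_iff_support_of_nonneg hnn hint).2 (by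
    rw [pos_iff_ne_zero]
    intro hcon
    have hsub : (Set.univ : Set ℝ) ⊆ Function.support (fun x : ℝ => 1 - exp (-(1 * |x|))) ∪ {0} := by
      intro x _
      by_cases hx : x = 0
      · right; exact hx
      · left
        rw [Function.mem_support]
        have h1 : exp (-(1 * |x|)) < 1 := by
          rw [Real.exp_lt_one_iff]
          have := abs_pos.2 hx
          linarith
        linarith
    have h2 := (measure_mono hsub).trans (measure_union_le (μ := gaussianReal 0 1) _ _)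
    have := nullSingletonClass_gaussianReal (μ := 0) (v := 1) one_ne_zero
    rw [hcon, measure_singleton, measure_univ] at h2
    simp at h2)
  rw [integral_sub (integrable_const _) (psi_int 1)] at hpos
  simp only [integral_const, probReal_univ, smul_eq_mul, one_mul] at hpos
  have e : ∫ x, exp (-|x|) ∂(gaussianReal 0 1) = psi 1 := by simp [psi]
  rw [e] at hpos
  linarith

theorem psi_le_of_nonneg {a : ℝ} (h0 : 0 ≤ a) (h1 : a ≤ 1) : psi a ≤ 1 - a * (1 - psi 1) := by
  have hle : psi a ≤ ∫ x, ((1 - a) + a * exp (-(1 * |x|))) ∂(gaussianReal 0 1) := by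
    apply integral_mono (psi_int a) ((integrable_const _).add ((psi_int 1).const_mul _))
    intro x
    have := convexOn_exp.2 (Set.mem_univ 0) (Set.mem_univ (-(1 * |x|))) (by linarith : 0 ≤ 1 - a) h0
      (by ring)
    simp only [smul_eq_mul, mul_zero, zero_add, exp_zero, mul_one] at this
    simp only
    calc exp (-(a * |x|)) = exp (a * -(1 * |x|)) := by congr 1; ring
      _ ≤ _ := this
  rw [integral_add (integrable_const _) ((psi_int 1).const_mul _), integral_const_mul] at hle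
  simp only [integral_const, probReal_univ, smul_eq_mul, one_mul] at hle
  have e : ∫ x, exp (-|x|) ∂(gaussianReal 0 1) = psi 1 := by simp [psi]
  rw [e] at hle
  linarith

theorem psi_le_of_nonpos {a : ℝ} (h0 : -1 ≤ a) (h1 : a ≤ 0) : psi a ≤ 1 + |a| * psi (-1) := by
  have hle : psi a ≤ ∫ x, ((1 - |a|) + |a| * exp (-(-1 * |x|))) ∂(gaussianReal 0 1) := by
    apply integral_mono (psi_int a) ((integrable_const _).add ((psi_int (-1)).const_mul _))
    intro x
    have := convexOn_exp.2 (Set.mem_univ 0) (Set.mem_univ (-(-1 * |x|)))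
      (by rw [abs_of_nonpos h1]; linarith : 0 ≤ 1 - |a|) (abs_nonneg a) (by ring)
    simp only [smul_eq_mul, mul_zero, zero_add, exp_zero, mul_one] at this
    simp only
    calc exp (-(a * |x|)) = exp (|a| * -(-1 * |x|)) := by rw [abs_of_nonpos h1]; congr 1; ring
      _ ≤ _ := this
  rw [integral_add (integrable_const _) ((psi_int (-1)).const_mul _), integral_const_mul] at hle
  simp only [integral_const, probReal_univ, smul_eq_mul, one_mul] at hle
  have e : ∫ x, exp (-(-1 * |x|)) ∂(gaussianReal 0 1) = psi (-1) := rfl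
  rw [e] at hle
  have := abs_nonneg a
  linarith

/-- half of the Gaussian integral -/
theorem half_psi (σ a : ℝ) (hσ : σ = 1 ∨ σ = -1) :
    ∫⁻ x, ENNReal.ofReal (exp (a * x)) * Set.indicator {x | σ * x ≤ 0} (fun _ => 1) x ∂(gaussianReal 0 1) =
      ENNReal.ofReal (psi (σ * a) / 2) := by
  set γ := gaussianReal 0 1 with hγ
  have hna := nullSingletonClass_gaussianReal (μ := 0) (v := 1) one_ne_zero
  set f : ℝ → ℝ≥0∞ := fun x => ENNReal.ofReal (exp (-(σ * a * |x|))) with hf
  have hfm : Measurable f := by rw [hf]; fun_prop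
  have hmap : γ.map (fun x => -x) = γ := by rw [hγ, gaussianReal_map_neg, neg_zero]
  -- the two halves
  have hA : MeasurableSet {x : ℝ | x ≤ 0} := measurableSet_Iic
  have hB : MeasurableSet {x : ℝ | 0 ≤ x} := measurableSet_Ici
  have hsym : ∫⁻ x in {x : ℝ | x ≤ 0}, f x ∂γ = ∫⁻ x in {x : ℝ | 0 ≤ x}, f x ∂γ := by
    rw [← lintegral_indicator hA, ← lintegral_indicator hB]
    nth_rewrite 1 [← hmap]
    rw [lintegral_map (hfm.indicator hA) measurable_neg]
    apply lintegral_congr
    intro x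
    by_cases hx : 0 ≤ x
    · rw [Set.indicator_of_mem (show -x ∈ {x : ℝ | x ≤ 0} by simpa using hx), Set.indicator_of_mem (show x ∈ {x : ℝ | 0 ≤ x} from hx)]
      simp [hf]
    · rw [Set.indicator_of_notMem (show -x ∉ {x : ℝ | x ≤ 0} by simpa using hx), Set.indicator_of_notMem (show x ∉ {x : ℝ | 0 ≤ x} from hx)]
  have htot : ∫⁻ x in {x : ℝ | x ≤ 0}, f x ∂γ + ∫⁻ x in {x : ℝ | 0 ≤ x}, f x ∂γ = ∫⁻ x, f x ∂γ := by
    have e1 : ∫⁻ x in {x : ℝ | 0 ≤ x}, f x ∂γ = ∫⁻ x in ({x : ℝ | x ≤ 0})ᶜ, f x ∂γ := by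
      apply setLIntegral_congr
      have : ({x : ℝ | 0 ≤ x} : Set ℝ) = ({x : ℝ | x ≤ 0})ᶜ ∪ {0} := by
        ext x
        simp only [Set.mem_ofPred_eq, Set.mem_union, Set.mem_compl_iff, not_le, Set.mem_singleton_iff]
        constructor
        · intro h; rcases h.lt_or_eq with h | h
          · left; exact h
          · right; exact h.symm
        · rintro (h | h)
          · exact h.le
          · rw [h]
      rw [this]
      apply union_ae_eq_left_iff_ae_subset.2
      apply (ae_le_set.2 _)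
      apply measure_mono_null Set.sdiff_subset
      exact measure_singleton _
    rw [e1, lintegral_add_compl _ hA]
  have hval : ∫⁻ x, f x ∂γ = ENNReal.ofReal (psi (σ * a)) := by
    rw [psi, ofReal_integral_eq_lintegral_ofReal (psi_int _) (Eventually.of_forall fun _ => (exp_pos _).le)]
  have hhalf : ∀ X : ℝ≥0∞, X + X = ENNReal.ofReal (psi (σ * a)) → X = ENNReal.ofReal (psi (σ * a) / 2) := by
    intro X hX
    rw [ENNReal.ofReal_div_of_pos (by norm_num), ← hX, ← two_mul]
    rw [show ENNReal.ofReal 2 = 2 by simp]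
    rw [ENNReal.eq_div_iff (by norm_num) (by norm_num)]
  rcases hσ with rfl | rfl
  · apply hhalf
    have e : ∫⁻ x, ENNReal.ofReal (exp (a * x)) * Set.indicator {x | (1 : ℝ) * x ≤ 0} (fun _ => 1) x ∂γ =
        ∫⁻ x in {x : ℝ | x ≤ 0}, f x ∂γ := by
      rw [← lintegral_indicator hA]
      apply lintegral_congr
      intro x
      by_cases hx : x ≤ 0
      · rw [Set.indicator_of_mem (show x ∈ {x | (1 : ℝ) * x ≤ 0} by simpa using hx), Set.indicator_of_mem (show x ∈ {x : ℝ | x ≤ 0} from hx)]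
        simp only [hf, mul_one, one_mul, abs_of_nonpos hx]
        congr 2; ring
      · rw [Set.indicator_of_notMem (show x ∉ {x | (1 : ℝ) * x ≤ 0} by simpa using hx), Set.indicator_of_notMem (show x ∉ {x : ℝ | x ≤ 0} from hx), mul_zero]
    rw [e]
    nth_rewrite 2 [hsym]
    rw [htot, hval]
  · apply hhalf
    have e : ∫⁻ x, ENNReal.ofReal (exp (a * x)) * Set.indicator {x | (-1 : ℝ) * x ≤ 0} (fun _ => 1) x ∂γ =
        ∫⁻ x in {x : ℝ | 0 ≤ x}, f x ∂γ := by
      rw [← lintegral_indicator hB]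
      apply lintegral_congr
      intro x
      by_cases hx : 0 ≤ x
      · rw [Set.indicator_of_mem (show x ∈ {x | (-1 : ℝ) * x ≤ 0} by simpa using hx), Set.indicator_of_mem (show x ∈ {x : ℝ | 0 ≤ x} from hx)]
        simp only [hf, mul_one, abs_of_nonneg hx]
        congr 2; ring
      · rw [Set.indicator_of_notMem (show x ∉ {x | (-1 : ℝ) * x ≤ 0} by simpa using hx), Set.indicator_of_notMem (show x ∉ {x : ℝ | 0 ≤ x} from hx), mul_zero]
    rw [e]
    nth_rewrite 1 [← hsym]
    rw [htot, hval]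

end Pool.Agent.H964
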