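import Pool.Agent.H964.LF.Seg

/-!
# Geometry of the tents
-/

set_option autoImplicit false

namespace Pool.Agent.H964

open Real

/-- the point with coordinates `x, y` in the frame of the segment -/
noncomputable def fr (u v : ℂ) (x y : ℝ) : ℂ := u + (⟨x, y⟩ : ℂ) * (v - u)

theorem pt_eq_fr (u v : ℂ) (x : ℝ) : pt u v x = fr u v x 0 := by
  unfold pt fr
  congr 2

theorem fr_sub (u v : ℂ) (x y x' y' : ℝ) :
    fr u v x y - fr u v x' y' = (⟨x - x', y - y'⟩ : ℂ) * (v - u) := by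
  have : (⟨x - x', y - y'⟩ : ℂ) = (⟨x, y⟩ : ℂ) - ⟨x', y'⟩ := by
    apply Complex.ext <;> simp
  rw [this]; unfold fr; ring

theorem norm_fr_sub (u v : ℂ) (x y x' y' : ℝ) :
    ‖fr u v x y - fr u v x' y'‖ = ‖(⟨x - x', y - y'⟩ : ℂ)‖ * ‖u - v‖ := by
  rw [fr_sub, norm_mul, norm_sub_rev v u]

/-- the top of the tent -/
noncomputable def cc (s : ℝ) (u v : ℂ) (τ : ℝ) : ℂ := fr u v (1 / 2) (τ * s)

/-- the lower end of the test segment -/
noncomputable def aa (s : ℝ) (u v : ℂ) (τ : ℝ) : ℂ := fr u v (1 / 4) (τ * s / 2)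

theorem pt_fr (u v : ℂ) (x y x' y' w : ℝ) :
    pt (fr u v x y) (fr u v x' y') w = fr u v (x + w * (x' - x)) (y + w * (y' - y)) := by
  unfold pt
  rw [fr_sub]
  unfold fr
  have : (⟨x + w * (x' - x), y + w * (y' - y)⟩ : ℂ) = (⟨x, y⟩ : ℂ) + (w : ℂ) * ⟨x' - x, y' - y⟩ := by
    apply Complex.ext <;> simp
  rw [this]; ring

theorem fr_zero (u v : ℂ) : fr u v 0 0 = u := by
  unfold fr
  have : (⟨0, 0⟩ : ℂ) = 0 := rfl
  rw [this]; ring

theorem fr_one (u v : ℂ) : fr u v 1 0 = v := by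
  unfold fr
  have : (⟨1, 0⟩ : ℂ) = 1 := rfl
  rw [this]; ring

/-- the points of the tent -/
noncomputable def PP (s : ℝ) (D : ℕ) (u v : ℂ) (τ : ℝ) (j : ℕ) : ℂ :=
  if j ≤ D then fr u v ((j / D : ℝ) / 2) ((j / D : ℝ) * (τ * s))
  else fr u v ((j / D : ℝ) / 2) ((2 - (j / D : ℝ)) * (τ * s))

theorem PP_left (s : ℝ) (D : ℕ) (u v : ℂ) (τ : ℝ) {j : ℕ} (hj : j ≤ D) :
    PP s D u v τ j = fr u v ((j / D : ℝ) / 2) ((j / D : ℝ) * (τ * s)) := by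
  unfold PP; rw [if_pos hj]

theorem PP_right (s : ℝ) {D : ℕ} (hD : 0 < D) (u v : ℂ) (τ : ℝ) {j : ℕ} (hj : D ≤ j) :
    PP s D u v τ j = fr u v ((j / D : ℝ) / 2) ((2 - (j / D : ℝ)) * (τ * s)) := by
  rcases hj.eq_or_lt with h | h
  · have hD' : (D : ℝ) ≠ 0 := by exact_mod_cast hD.ne'
    rw [← h, PP_left _ _ _ _ _ le_rfl, div_self hD']
    norm_num
  · unfold PP; rw [if_neg (by omega)]

theorem PP_zero (s : ℝ) (D : ℕ) (u v : ℂ) (τ : ℝ) : PP s D u v τ 0 = u := by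
  rw [PP_left _ _ _ _ _ (Nat.zero_le _)]
  simp only [Nat.cast_zero, zero_div, zero_mul]
  exact fr_zero u v

theorem PP_end (s : ℝ) {D : ℕ} (hD : 0 < D) (u v : ℂ) (τ : ℝ) : PP s D u v τ (2 * D) = v := by
  have hD' : (D : ℝ) ≠ 0 := by exact_mod_cast hD.ne'
  rw [PP_right _ hD _ _ _ (by omega)]
  have : ((2 * D : ℕ) : ℝ) / D = 2 := by push_cast; field_simp
  rw [this]
  norm_num
  exact fr_one u v

/-- the stretching factor -/
noncomputable def lam2 (s : ℝ) : ℝ := √(1 / 4 + s ^ 2)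

theorem lam2_pos (s : ℝ) : 0 < lam2 s := Real.sqrt_pos.2 (by positivity)

theorem lam2_ge (s : ℝ) : 1 / 2 ≤ lam2 s := by
  apply Real.le_sqrt_of_sq_le
  nlinarith [sq_nonneg s]

theorem lam2_le {s : ℝ} (hs : 0 ≤ s) (hs1 : s ≤ 1 / 4) : lam2 s ≤ 3 / 4 := by
  unfold lam2
  rw [Real.sqrt_le_left (by norm_num)]
  nlinarith

theorem norm_half {τ s : ℝ} (hτ : τ = 1 ∨ τ = -1) : ‖(⟨1 / 2, τ * s⟩ : ℂ)‖ = lam2 s := by
  rw [lam2, Complex.norm_def, Complex.normSq_mk]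
  congr 1
  rcases hτ with rfl | rfl <;> ring

theorem child_norm {s : ℝ} {D : ℕ} (hD : 0 < D) (u v : ℂ) {τ : ℝ} (hτ : τ = 1 ∨ τ = -1) (i : ℕ) :
    ‖PP s D u v τ i - PP s D u v τ (i + 1)‖ = lam2 s / D * ‖u - v‖ := by
  have hD' : (0 : ℝ) < D := by exact_mod_cast hD
  have key : ∀ σ : ℝ, (σ = 1 ∨ σ = -1) → ‖(⟨-(1 / D : ℝ) / 2, -(1 / D : ℝ) * (σ * s)⟩ : ℂ)‖ = lam2 s / D := by
    intro σ hσ
    have e : (⟨-(1 / D : ℝ) / 2, -(1 / D : ℝ) * (σ * s)⟩ : ℂ) = ((-(1 / D) : ℝ) : ℂ) * ⟨1 / 2, σ * s⟩ := by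
      apply Complex.ext
      · simp; ring
      · simp
    rw [e, norm_mul, norm_half hσ, Complex.norm_real, norm_neg, norm_of_nonneg (by positivity)]
    ring
  rcases Nat.lt_or_ge i D with h | h
  · rw [PP_left _ _ _ _ _ h.le, PP_left _ _ _ _ _ (by omega : i + 1 ≤ D), norm_fr_sub]
    congr 1
    rw [← key τ hτ]
    congr 1
    push_cast
    apply Complex.ext
    · simp; ring
    · simp; ring
  · rw [PP_right _ hD _ _ _ h, PP_right _ hD _ _ _ (by omega : D ≤ i + 1), norm_fr_sub]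
    congr 1
    have hτ' : -τ = 1 ∨ -τ = -1 := by
      rcases hτ with rfl | rfl
      · right; rfl
      · left; ring
    rw [← key (-τ) hτ']
    congr 1
    push_cast
    apply Complex.ext
    · simp; ring
    · simp; ring

/-- points of the children -/
theorem child_pt {s : ℝ} (hs : 0 ≤ s) {D : ℕ} (hD : 0 < D) (u v : ℂ) (τ : ℝ) {i : ℕ} (hi : i < 2 * D)
    {t : ℝ} (ht : t ∈ Set.Icc (0 : ℝ) 1) :
    ∃ x ∈ Set.Icc (0 : ℝ) 1, ∃ y ∈ Set.Icc (0 : ℝ) s,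
      pt (PP s D u v τ i) (PP s D u v τ (i + 1)) t = fr u v x (τ * y) := by
  have hD' : (0 : ℝ) < D := by exact_mod_cast hD
  have ht0 := ht.1
  have ht1 := ht.2
  rcases Nat.lt_or_ge i D with h | h
  · have hi1 : (i : ℝ) + 1 ≤ D := by exact_mod_cast h
    rw [PP_left _ _ _ _ _ h.le, PP_left _ _ _ _ _ (by omega : i + 1 ≤ D), pt_fr]
    push_cast
    have hw0 : 0 ≤ ((i : ℝ) + t) / D := by positivity
    have hw1 : ((i : ℝ) + t) / D ≤ 1 := by rw [div_le_one hD']; linarith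
    refine ⟨((i : ℝ) + t) / D / 2, ⟨by positivity, by linarith⟩, ((i : ℝ) + t) / D * s,
      ⟨by positivity, mul_le_of_le_one_left hs hw1⟩, ?_⟩
    congr 1
    · ring
    · ring
  · have hi2 : (i : ℝ) + 1 ≤ 2 * D := by exact_mod_cast hi
    have hi1 : (D : ℝ) ≤ i := by exact_mod_cast h
    rw [PP_right _ hD _ _ _ h, PP_right _ hD _ _ _ (by omega : D ≤ i + 1), pt_fr]
    push_cast
    have hw0 : 1 ≤ ((i : ℝ) + t) / D := by rw [le_div_iff₀ hD']; linarith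
    have hw1 : ((i : ℝ) + t) / D ≤ 2 := by rw [div_le_iff₀ hD']; linarith
    refine ⟨((i : ℝ) + t) / D / 2, ⟨by positivity, by linarith⟩, (2 - ((i : ℝ) + t) / D) * s,
      ⟨mul_nonneg (by linarith) hs, mul_le_of_le_one_left hs (by linarith)⟩, ?_⟩
    congr 1
    · ring
    · ring

/-- the children close to the test segment -/
theorem child_mid {s : ℝ} {D₂ : ℕ} (hD : 0 < D₂) (u v : ℂ) (τ : ℝ) {i : ℕ} (hi1 : D₂ ≤ i)
    (hi2 : i < 2 * D₂) {t : ℝ} (ht : t ∈ Set.Icc (0 : ℝ) 1) :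
    ∃ t₀ ∈ Set.Icc (0 : ℝ) 1,
      pt (PP s (2 * D₂) u v τ i) (PP s (2 * D₂) u v τ (i + 1)) t = pt (aa s u v τ) (cc s u v τ) t₀ := by
  have hD' : (0 : ℝ) < D₂ := by exact_mod_cast hD
  have ht0 := ht.1
  have ht1 := ht.2
  have h1 : (D₂ : ℝ) ≤ i := by exact_mod_cast hi1
  have h2 : (i : ℝ) + 1 ≤ 2 * D₂ := by exact_mod_cast hi2
  rw [PP_left _ _ _ _ _ (by omega), PP_left _ _ _ _ _ (by omega : i + 1 ≤ 2 * D₂), pt_fr]
  push_cast
  refine ⟨((i : ℝ) + t) / D₂ - 1, ⟨?_, ?_⟩, ?_⟩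
  · rw [sub_nonneg, le_div_iff₀ hD']; linarith
  · rw [sub_le_iff_le_add, div_le_iff₀ hD']; linarith
  · unfold aa cc
    rw [pt_fr]
    congr 1
    · field_simp; ring
    · field_simp; ring

theorem norm_aa_cc {s : ℝ} (u v : ℂ) {τ : ℝ} (hτ : τ = 1 ∨ τ = -1) :
    ‖aa s u v τ - cc s u v τ‖ = lam2 s / 2 * ‖u - v‖ := by
  unfold aa cc
  rw [norm_fr_sub]
  congr 1
  have e : (⟨1 / 4 - 1 / 2, τ * s / 2 - τ * s⟩ : ℂ) = ((-(1 / 2) : ℝ) : ℂ) * ⟨1 / 2, τ * s⟩ := by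
    apply Complex.ext
    · simp; norm_num
    · simp; ring
  rw [e, norm_mul, norm_half hτ, Complex.norm_real, norm_neg, norm_of_nonneg (by norm_num)]
  ring

theorem pt_aa_cc {s : ℝ} (u v : ℂ) (τ t : ℝ) :
    pt (aa s u v τ) (cc s u v τ) t = fr u v (1 / 4 + t / 4) (τ * (s / 2 + t * (s / 2))) := by
  unfold aa cc
  rw [pt_fr]
  congr 1
  · ring
  · ring

theorem norm_mk_le_abs (x y : ℝ) : |y| ≤ ‖(⟨x, y⟩ : ℂ)‖ := Complex.abs_im_le_norm (⟨x, y⟩ : ℂ)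

/-- distance from the base -/
theorem fr_base {u v : ℂ} {s x y : ℝ} (hy : |y| ≤ s) : ‖fr u v x y - pt u v x‖ ≤ s * ‖u - v‖ := by
  rw [pt_eq_fr, norm_fr_sub]
  have e : (⟨x - x, y - 0⟩ : ℂ) = (y : ℂ) * Complex.I := by
    apply Complex.ext <;> simp
  rw [e, norm_mul, Complex.norm_I, mul_one, Complex.norm_real, Real.norm_eq_abs]
  gcongr

end Pool.Agent.H964
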