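import Pool.Agent.H964.LF.XX

/-!
# Differences of circle averages and their averages over segments
-/

set_option autoImplicit false

namespace Pool.Agent.H964

open MeasureTheory ProbabilityTheory Real Filter Topology
open Pool.Agent.Y980

variable {Ω : Type*} [MeasurableSpace Ω] {P : Measure Ω} {h : ℝ → ℂ → Ω → ℝ}

theorem cN_zero {r : ℝ} {z : ℂ} (hr : 0 ≤ r) (hz : ‖z‖ + r ≤ 1) : cN r z = 0 := by
  unfold cN
  have : Set.EqOn (fun x : ℂ => log (max ‖x‖ 1)) (fun _ => 0) (Metric.sphere z |r|) := by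
    intro x hx
    rw [mem_sphere_iff_norm, abs_of_nonneg hr] at hx
    have h1 : ‖x‖ ≤ 1 := by
      calc ‖x‖ = ‖(x - z) + z‖ := by ring_nf
        _ ≤ ‖x - z‖ + ‖z‖ := norm_add_le _ _
        _ ≤ _ := by linarith
    simp only
    rw [max_eq_right h1, log_one]
  rw [circleAverage_congr_sphere this, circleAverage_const]

/-- the radial potential -/
noncomputable def vv (r : ℝ) (x z : ℂ) : ℝ := log (max (2 * r) ‖z - x‖) - log (max r ‖z - x‖)

theorem vv_continuous {r : ℝ} (hr : 0 < r) (x : ℂ) : Continuous (vv r x) :=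
  (continuous_logmax (by positivity : 0 < 2 * r) x).sub (continuous_logmax hr x)

theorem vv_nonneg {r : ℝ} (hr : 0 < r) (x z : ℂ) : 0 ≤ vv r x z := by
  unfold vv
  rw [sub_nonneg]
  apply log_le_log (lt_max_of_lt_left hr)
  exact max_le_max_right _ (by linarith)

theorem vv_le {r : ℝ} (hr : 0 < r) (x z : ℂ) : vv r x z ≤ log 2 := by
  unfold vv
  rw [← log_div (lt_max_of_lt_left (by positivity)).ne' (lt_max_of_lt_left hr).ne']
  have h0 : 0 < max r ‖z - x‖ := lt_max_of_lt_left hr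
  apply log_le_log (div_pos (lt_max_of_lt_left (by positivity)) h0)
  rw [div_le_iff₀ h0]
  apply max_le
  · have := le_max_left r ‖z - x‖
    linarith
  · have := le_max_right r ‖z - x‖
    have := norm_nonneg (z - x)
    linarith

theorem vv_far {r : ℝ} (hr : 0 < r) {x z : ℂ} (h : 2 * r ≤ ‖z - x‖) : vv r x z = 0 := by
  unfold vv
  rw [max_eq_right h, max_eq_right (by linarith), sub_self]

theorem vv_near {r : ℝ} (hr : 0 < r) {x z : ℂ} (h : ‖z - x‖ ≤ r) : vv r x z = log 2 := by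
  unfold vv
  rw [max_eq_left h, max_eq_left (by linarith), log_mul (by norm_num) hr.ne']
  ring

theorem logmax_diff_le {r s t : ℝ} (hr : 0 < r) (hst : s ≤ t) :
    log (max r t) - log (max r s) ≤ (t - s) / r := by
  have h1 : 0 < max r t := lt_max_of_lt_left hr
  have h2 : 0 < max r s := lt_max_of_lt_left hr
  rw [← log_div h1.ne' h2.ne']
  refine (log_le_sub_one_of_pos (div_pos h1 h2)).trans ?_
  have h3 : max r t ≤ max r s + (t - s) := by
    apply max_le
    · have := le_max_left r s; linarith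
    · have := le_max_right r s; linarith
  have h4 : max r t / max r s - 1 = (max r t - max r s) / max r s := by field_simp
  rw [h4]
  have h5 : max r s ≤ max r t := max_le_max_left _ hst
  calc (max r t - max r s) / max r s ≤ (max r t - max r s) / r := by
        apply div_le_div_of_nonneg_left (by linarith) hr (le_max_left _ _)
    _ ≤ (t - s) / r := div_le_div_of_nonneg_right (by linarith) hr.le

theorem vv_lip {r : ℝ} (hr : 0 < r) (x z w : ℂ) : |vv r x z - vv r x w| ≤ ‖z - w‖ / r := by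
  have key : ∀ z w : ℂ, vv r x z - vv r x w ≤ ‖z - w‖ / r := by
    intro z w
    rcases le_total ‖w - x‖ ‖z - x‖ with h | h
    · -- the potential decreases up to the first term
      have h1 := logmax_diff_le (r := 2 * r) (by positivity) h
      have h2 : log (max r ‖w - x‖) ≤ log (max r ‖z - x‖) :=
        log_le_log (lt_max_of_lt_left hr) (max_le_max_left _ h)
      have h3 : ‖z - x‖ - ‖w - x‖ ≤ ‖z - w‖ := by
        have := norm_sub_norm_le (z - x) (w - x)
        rwa [sub_sub_sub_cancel_right] at this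
      have h4 : (‖z - x‖ - ‖w - x‖) / (2 * r) ≤ ‖z - w‖ / r := by
        apply div_le_div₀ (norm_nonneg _) h3 hr (by linarith)
      unfold vv
      linarith
    · have h1 := logmax_diff_le hr h
      have h2 : log (max (2 * r) ‖z - x‖) ≤ log (max (2 * r) ‖w - x‖) :=
        log_le_log (lt_max_of_lt_left (by positivity)) (max_le_max_left _ h)
      have h3 : ‖w - x‖ - ‖z - x‖ ≤ ‖z - w‖ := by
        have := norm_sub_norm_le (w - x) (z - x)
        rwa [sub_sub_sub_cancel_right, norm_sub_rev w z] at this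
      have h4 : (‖w - x‖ - ‖z - x‖) / r ≤ ‖z - w‖ / r := by gcongr
      unfold vv
      linarith
  rw [abs_le]
  constructor
  · have := key w z
    rw [norm_sub_rev] at this
    linarith
  · exact key z w

section

variable (hh : IsGFF P h)

theorem HH_inner' {r s : ℝ} (hr : 0 < r) (hs : 0 < s) (z w : ℂ) :
    inner ℝ (HH hh hr z) (HH hh hs w) = cN r z + cN s w - cA r z s w := by
  have := gff_prob hh
  have h1 := hh.cov r z s w hr hs
  rw [double_avg hs] at h1
  rw [← h1, covariance_eq_sub (gff_memLp hh hr z) (gff_memLp hh hs w), hh.mean r z hr,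
    hh.mean s w hs, L2.inner_def]
  simp only [mul_zero, sub_zero]
  apply integral_congr_ae
  filter_upwards [HH_coe hh hr z, HH_coe hh hs w] with ω h2 h3
  rw [h2, h3]
  simp [mul_comm]

/-- difference of two circle averages around `x` -/
noncomputable def TT {r : ℝ} (hr : 0 < r) (x : ℂ) : Lp ℝ 2 P :=
  HH hh hr x - HH hh (mul_pos two_pos hr) x

theorem inner_TT {ρ r : ℝ} (hρ : 0 < ρ) (hr : 0 < r) {z x : ℂ} (hx : ‖x‖ + 2 * r ≤ 1) :
    inner ℝ (HH hh hρ z) (TT hh hr x) = circleAverage (vv r x) z ρ := by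
  rw [TT, inner_sub_right, HH_inner' hh hρ hr, HH_inner' hh hρ (mul_pos two_pos hr),
    cN_zero hr.le (by linarith), cN_zero (by positivity) hx]
  unfold vv cA
  rw [circleAverage_fun_sub (ci_of_cont (continuous_logmax (mul_pos two_pos hr) x) _ _)
    (ci_of_cont (continuous_logmax hr x) _ _)]
  ring

theorem inner_TT_nonneg {ρ r : ℝ} (hρ : 0 < ρ) (hr : 0 < r) {z x : ℂ} (hx : ‖x‖ + 2 * r ≤ 1) :
    0 ≤ inner ℝ (HH hh hρ z) (TT hh hr x) := by
  rw [inner_TT hh hρ hr hx]
  exact le_avg (vv_continuous hr x) fun y _ => vv_nonneg hr x y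

theorem inner_TT_le {ρ r : ℝ} (hρ : 0 < ρ) (hr : 0 < r) {z x : ℂ} (hx : ‖x‖ + 2 * r ≤ 1) :
    inner ℝ (HH hh hρ z) (TT hh hr x) ≤ log 2 := by
  rw [inner_TT hh hρ hr hx]
  exact avg_le (vv_continuous hr x) fun y _ => vv_le hr x y

theorem inner_TT_far {ρ r : ℝ} (hρ : 0 < ρ) (hr : 0 < r) {z x : ℂ} (hx : ‖x‖ + 2 * r ≤ 1)
    (hzx : 2 * r + ρ ≤ ‖z - x‖) : inner ℝ (HH hh hρ z) (TT hh hr x) = 0 := by
  rw [inner_TT hh hρ hr hx]
  have : Set.EqOn (vv r x) (fun _ => 0) (Metric.sphere z |ρ|) := by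
    intro y hy
    rw [mem_sphere_iff_norm, abs_of_pos hρ] at hy
    apply vv_far hr
    have : ‖z - x‖ ≤ ‖y - x‖ + ‖y - z‖ := by
      calc ‖z - x‖ = ‖(y - x) - (y - z)‖ := by ring_nf
        _ ≤ _ := norm_sub_le _ _
    linarith
  rw [circleAverage_congr_sphere this, circleAverage_const]

theorem inner_TT_near {ρ r : ℝ} (hρ : 0 < ρ) (hr : 0 < r) {z x : ℂ} (hx : ‖x‖ + 2 * r ≤ 1)
    (hzx : ‖z - x‖ + ρ ≤ r) : inner ℝ (HH hh hρ z) (TT hh hr x) = log 2 := by
  rw [inner_TT hh hρ hr hx]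
  have : Set.EqOn (vv r x) (fun _ => log 2) (Metric.sphere z |ρ|) := by
    intro y hy
    rw [mem_sphere_iff_norm, abs_of_pos hρ] at hy
    apply vv_near hr
    calc ‖y - x‖ = ‖(y - z) + (z - x)‖ := by ring_nf
      _ ≤ ‖y - z‖ + ‖z - x‖ := norm_add_le _ _
      _ ≤ _ := by linarith
  rw [circleAverage_congr_sphere this, circleAverage_const]

theorem inner_TT_TT {ρ r : ℝ} (hρ : 0 < ρ) (hr : 0 < r) {z x : ℂ} (hx : ‖x‖ + 2 * r ≤ 1) :
    |inner ℝ (TT hh hρ z) (TT hh hr x)| ≤ 3 * ρ / r := by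
  have key : ∀ s : ℝ, ∀ hs : 0 < s, |inner ℝ (HH hh hs z) (TT hh hr x) - vv r x z| ≤ s / r := by
    intro s hs
    rw [inner_TT hh hs hr hx, abs_le]
    constructor
    · have : vv r x z - s / r ≤ circleAverage (vv r x) z s := by
        apply le_avg (vv_continuous hr x)
        intro y hy
        rw [mem_sphere_iff_norm, abs_of_pos hs] at hy
        have := vv_lip hr x y z
        rw [hy, abs_le] at this
        linarith [this.1]
      linarith
    · have : circleAverage (vv r x) z s ≤ vv r x z + s / r := by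
        apply avg_le (vv_continuous hr x)
        intro y hy
        rw [mem_sphere_iff_norm, abs_of_pos hs] at hy
        have := vv_lip hr x y z
        rw [hy, abs_le] at this
        linarith [this.2]
      linarith
  have h1 := key ρ hρ
  have h2 := key (2 * ρ) (mul_pos two_pos hρ)
  have e : inner ℝ (TT hh hρ z) (TT hh hr x) = (inner ℝ (HH hh hρ z) (TT hh hr x) - vv r x z) -
      (inner ℝ (HH hh (mul_pos two_pos hρ) z) (TT hh hr x) - vv r x z) := by
    rw [TT, inner_sub_left]; ring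
  rw [e]
  refine (abs_sub _ _).trans ?_
  have e2 : 3 * ρ / r = ρ / r + 2 * ρ / r := by ring
  rw [e2]
  exact add_le_add h1 h2

theorem inner_TT_TT_far {ρ r : ℝ} (hρ : 0 < ρ) (hr : 0 < r) {z x : ℂ} (hx : ‖x‖ + 2 * r ≤ 1)
    (hzx : 2 * r + 2 * ρ ≤ ‖z - x‖) : inner ℝ (TT hh hρ z) (TT hh hr x) = 0 := by
  rw [TT, inner_sub_left, inner_TT_far hh hρ hr hx (by linarith),
    inner_TT_far hh (mul_pos two_pos hρ) hr hx hzx, sub_zero]

theorem inner_TT_same {r : ℝ} (hr : 0 < r) {x : ℂ} (hx : ‖x‖ + 2 * r ≤ 1) :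
    inner ℝ (TT hh hr x) (TT hh hr x) = log 2 := by
  have h1 := inner_TT_near hh hr hr hx (z := x) (by simp)
  have h2 := inner_TT_far hh (mul_pos two_pos hr) hr hx (z := x)
  have h3 : inner ℝ (HH hh (mul_pos two_pos hr) x) (TT hh hr x) = 0 := by
    rw [inner_TT hh (mul_pos two_pos hr) hr hx]
    have : Set.EqOn (vv r x) (fun _ => 0) (Metric.sphere x |2 * r|) := by
      intro y hy
      rw [mem_sphere_iff_norm, abs_of_pos (mul_pos two_pos hr)] at hy
      exact vv_far hr hy.ge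
    rw [circleAverage_congr_sphere this, circleAverage_const]
  nth_rewrite 1 [TT]
  rw [inner_sub_left, h1, h3, sub_zero]

/-- small scales are orthogonal to large scales at the same centre -/
theorem inner_TT_nested {ρ r : ℝ} (hρ : 0 < ρ) (hr : 0 < r) {x : ℂ} (hx : ‖x‖ + 2 * r ≤ 1)
    (hρr : 2 * ρ ≤ r) : inner ℝ (TT hh hρ x) (TT hh hr x) = 0 := by
  nth_rewrite 1 [TT]
  rw [inner_sub_left, inner_TT_near hh hρ hr hx (by simp; linarith),
    inner_TT_near hh (mul_pos two_pos hρ) hr hx (by simp; linarith), sub_self]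

/-- average over a segment -/
noncomputable def YY {r : ℝ} (hr : 0 < r) (a b : ℂ) : Lp ℝ 2 P :=
  XX hh hr a b - XX hh (mul_pos two_pos hr) a b

theorem TT_pt_continuous {r : ℝ} (hr : 0 < r) (a b : ℂ) : Continuous fun t => TT hh hr (pt a b t) :=
  (HH_pt_continuous hh hr a b).sub (HH_pt_continuous hh (mul_pos two_pos hr) a b)

theorem inner_YY {r : ℝ} (hr : 0 < r) (D : Lp ℝ 2 P) (a b : ℂ) :
    inner ℝ D (YY hh hr a b) = ∫ t in (0 : ℝ)..1, inner ℝ D (TT hh hr (pt a b t)) := by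
  rw [YY, inner_sub_right, inner_XX, inner_XX, ← intervalIntegral.integral_sub]
  · simp only [TT, inner_sub_right]
  · exact (Continuous.inner continuous_const (HH_pt_continuous hh hr a b)).intervalIntegrable _ _
  · exact (Continuous.inner continuous_const
      (HH_pt_continuous hh (mul_pos two_pos hr) a b)).intervalIntegrable _ _

end

theorem norm_pt_sub (a b : ℂ) (s t : ℝ) : ‖pt a b s - pt a b t‖ = |s - t| * ‖a - b‖ := by
  have : pt a b s - pt a b t = ((s - t : ℝ) : ℂ) * (b - a) := by unfold pt; push_cast; ring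
  rw [this, norm_mul, Complex.norm_real, Real.norm_eq_abs, norm_sub_rev b a]

/-- a function which vanishes away from a point has a small integral over the segment -/
theorem int_bound {f : ℝ → ℝ} {K R : ℝ} {z a b : ℂ} (hK : 0 ≤ K) (hR : 0 ≤ R) (hab : 0 < ‖a - b‖)
    (hf : ∀ t ∈ Set.Icc (0 : ℝ) 1, |f t| ≤ K)
    (hf0 : ∀ t ∈ Set.Icc (0 : ℝ) 1, R ≤ ‖z - pt a b t‖ → f t = 0) :
    |∫ t in (0 : ℝ)..1, f t| ≤ K * (4 * R / ‖a - b‖) := by
  by_cases h : ∀ t ∈ Set.Icc (0 : ℝ) 1, f t = 0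
  · have : ∫ t in (0 : ℝ)..1, f t = ∫ t in (0 : ℝ)..1, (0 : ℝ) := by
      apply intervalIntegral.integral_congr
      intro t ht
      rw [Set.uIcc_of_le (by norm_num)] at ht
      exact h t ht
    rw [this]
    simp
    positivity
  · push Not at h
    obtain ⟨t₀, ht₀, hne⟩ := h
    have h0 : ‖z - pt a b t₀‖ < R := by
      by_contra hcon
      push Not at hcon
      exact hne (hf0 t₀ ht₀ hcon)
    set w := 2 * R / ‖a - b‖ with hw
    have hw0 : 0 ≤ w := by positivity
    have hbound : ∀ t ∈ Set.Ioc (0 : ℝ) 1, ‖f t‖ ≤ Set.indicator (Set.Icc (t₀ - w) (t₀ + w)) (fun _ => K) t := by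
      intro t ht
      by_cases hmem : t ∈ Set.Icc (t₀ - w) (t₀ + w)
      · rw [Set.indicator_of_mem hmem]
        exact hf t ⟨ht.1.le, ht.2⟩
      · rw [Set.indicator_of_notMem hmem]
        have hfar : R ≤ ‖z - pt a b t‖ := by
          have h1 : w ≤ |t - t₀| := by
            by_contra hcon
            push Not at hcon
            rw [abs_lt] at hcon
            exact hmem ⟨by linarith [hcon.1], by linarith [hcon.2]⟩
          have h2 : 2 * R ≤ ‖pt a b t - pt a b t₀‖ := by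
            rw [norm_pt_sub]
            calc 2 * R = w * ‖a - b‖ := by rw [hw]; field_simp
              _ ≤ |t - t₀| * ‖a - b‖ := by gcongr
          have h3 : ‖pt a b t - pt a b t₀‖ ≤ ‖z - pt a b t₀‖ + ‖z - pt a b t‖ := by
            calc ‖pt a b t - pt a b t₀‖ = ‖(z - pt a b t₀) - (z - pt a b t)‖ := by ring_nf
              _ ≤ _ := norm_sub_le _ _
          linarith
        rw [hf0 t ⟨ht.1.le, ht.2⟩ hfar, norm_zero]
    have hint : Integrable (Set.indicator (Set.Icc (t₀ - w) (t₀ + w)) (fun _ => K)) volume := by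
      rw [integrable_indicator_iff measurableSet_Icc]
      exact integrableOn_const (by simp)
    rw [intervalIntegral.integral_of_le (by norm_num), ← Real.norm_eq_abs]
    calc ‖∫ t in Set.Ioc (0 : ℝ) 1, f t‖ ≤
        ∫ t in Set.Ioc (0 : ℝ) 1, Set.indicator (Set.Icc (t₀ - w) (t₀ + w)) (fun _ => K) t := by
          apply norm_integral_le_of_norm_le hint.integrableOn
          rw [ae_restrict_iff' measurableSet_Ioc]
          exact Eventually.of_forall hbound
      _ ≤ ∫ t, Set.indicator (Set.Icc (t₀ - w) (t₀ + w)) (fun _ => K) t := by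
          apply setIntegral_le_integral hint
          apply Eventually.of_forall
          intro t
          exact Set.indicator_nonneg (fun _ _ => hK) _
      _ = K * (4 * R / ‖a - b‖) := by
          rw [integral_indicator measurableSet_Icc, setIntegral_const, smul_eq_mul, Measure.real,
            Real.volume_Icc, ENNReal.toReal_ofReal (by linarith)]
          rw [hw]; field_simp; ring

section

variable (hh : IsGFF P h)

/-- the segment is in the unit disc, with a margin -/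
def InD (R : ℝ) (a b : ℂ) : Prop := ∀ t ∈ Set.Icc (0 : ℝ) 1, ‖pt a b t‖ + R ≤ 1

theorem inner_HH_YY_nonneg {ρ r : ℝ} (hρ : 0 < ρ) (hr : 0 < r) {z a b : ℂ} (hab : InD (2 * r) a b) :
    0 ≤ inner ℝ (HH hh hρ z) (YY hh hr a b) := by
  rw [inner_YY]
  apply intervalIntegral.integral_nonneg (by norm_num)
  intro t ht
  exact inner_TT_nonneg hh hρ hr (hab t ht)

theorem inner_HH_YY_le {ρ r : ℝ} (hρ : 0 < ρ) (hr : 0 < r) {z a b : ℂ} (hab : InD (2 * r) a b)
    (h0 : 0 < ‖a - b‖) :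
    |inner ℝ (HH hh hρ z) (YY hh hr a b)| ≤ log 2 * (4 * (2 * r + ρ) / ‖a - b‖) := by
  rw [inner_YY]
  apply int_bound (z := z) (log_nonneg (by norm_num)) (by positivity) h0
  · intro t ht
    rw [abs_of_nonneg (inner_TT_nonneg hh hρ hr (hab t ht))]
    exact inner_TT_le hh hρ hr (hab t ht)
  · intro t ht hfar
    exact inner_TT_far hh hρ hr (hab t ht) hfar

theorem inner_HH_YY_far {ρ r : ℝ} (hρ : 0 < ρ) (hr : 0 < r) {z a b : ℂ} (hab : InD (2 * r) a b)
    (hfar : ∀ t ∈ Set.Icc (0 : ℝ) 1, 2 * r + ρ ≤ ‖z - pt a b t‖) :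
    inner ℝ (HH hh hρ z) (YY hh hr a b) = 0 := by
  rw [inner_YY]
  have : ∫ t in (0 : ℝ)..1, inner ℝ (HH hh hρ z) (TT hh hr (pt a b t)) = ∫ t in (0 : ℝ)..1, (0 : ℝ) := by
    apply intervalIntegral.integral_congr
    intro t ht
    rw [Set.uIcc_of_le (by norm_num)] at ht
    exact inner_TT_far hh hρ hr (hab t ht) (hfar t ht)
  rw [this]; simp

theorem inner_HH_YY_near {ρ r : ℝ} (hρ : 0 < ρ) (hr : 0 < r) {z a b : ℂ} (hab : InD (2 * r) a b)
    {t₀ : ℝ} (ht₀ : t₀ ∈ Set.Icc (0 : ℝ) 1) (hz : ‖z - pt a b t₀‖ ≤ r / 4) (hρr : ρ ≤ r / 4)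
    (hrL : r ≤ ‖a - b‖) :
    log 2 * (r / (2 * ‖a - b‖)) ≤ inner ℝ (HH hh hρ z) (YY hh hr a b) := by
  have hL : 0 < ‖a - b‖ := by linarith
  rw [inner_YY]
  set w := r / (2 * ‖a - b‖) with hw
  have hw0 : 0 < w := by positivity
  have hw1 : w ≤ 1 / 2 := by
    rw [hw, div_le_iff₀ (by positivity)]; linarith
  have hcont : Continuous fun t => inner ℝ (HH hh hρ z) (TT hh hr (pt a b t)) :=
    Continuous.inner continuous_const (TT_pt_continuous hh hr a b)
  have hnn : ∀ t ∈ Set.Icc (0 : ℝ) 1, 0 ≤ inner ℝ (HH hh hρ z) (TT hh hr (pt a b t)) :=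
    fun t ht => inner_TT_nonneg hh hρ hr (hab t ht)
  have hval : ∀ t ∈ Set.Icc (0 : ℝ) 1, |t - t₀| ≤ w →
      inner ℝ (HH hh hρ z) (TT hh hr (pt a b t)) = log 2 := by
    intro t ht htt
    apply inner_TT_near hh hρ hr (hab t ht)
    have h1 : ‖pt a b t₀ - pt a b t‖ ≤ r / 2 := by
      rw [norm_pt_sub, abs_sub_comm]
      calc |t - t₀| * ‖a - b‖ ≤ w * ‖a - b‖ := by gcongr
        _ = r / 2 := by rw [hw]; field_simp
    have h2 : ‖z - pt a b t‖ ≤ ‖z - pt a b t₀‖ + ‖pt a b t₀ - pt a b t‖ := by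
      calc ‖z - pt a b t‖ = ‖(z - pt a b t₀) + (pt a b t₀ - pt a b t)‖ := by ring_nf
        _ ≤ _ := norm_add_le _ _
    linarith
  -- an interval of length `w` around `t₀`
  obtain ⟨c, hc0, hc1, hct⟩ : ∃ c : ℝ, 0 ≤ c ∧ c + w ≤ 1 ∧ ∀ t ∈ Set.Icc c (c + w), |t - t₀| ≤ w := by
    rcases le_total t₀ (1 / 2) with h1 | h1
    · exact ⟨t₀, ht₀.1, by linarith, fun t ht => by rw [abs_le]; constructor <;> linarith [ht.1, ht.2]⟩
    · exact ⟨t₀ - w, by linarith, by linarith [ht₀.2], fun t ht => by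
        rw [abs_le]; constructor <;> linarith [ht.1, ht.2]⟩
  have h1 : ∫ t in (0 : ℝ)..1, inner ℝ (HH hh hρ z) (TT hh hr (pt a b t)) =
      (∫ t in (0 : ℝ)..c, inner ℝ (HH hh hρ z) (TT hh hr (pt a b t))) +
      (∫ t in c..(c + w), inner ℝ (HH hh hρ z) (TT hh hr (pt a b t))) +
      ∫ t in (c + w)..1, inner ℝ (HH hh hρ z) (TT hh hr (pt a b t)) := by
    rw [intervalIntegral.integral_add_adjacent_intervals (hcont.intervalIntegrable _ _)
      (hcont.intervalIntegrable _ _), intervalIntegral.integral_add_adjacent_intervals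
      (hcont.intervalIntegrable _ _) (hcont.intervalIntegrable _ _)]
  have h2 : 0 ≤ ∫ t in (0 : ℝ)..c, inner ℝ (HH hh hρ z) (TT hh hr (pt a b t)) :=
    intervalIntegral.integral_nonneg hc0 fun t ht => hnn t ⟨ht.1, by linarith [ht.2]⟩
  have h3 : 0 ≤ ∫ t in (c + w)..1, inner ℝ (HH hh hρ z) (TT hh hr (pt a b t)) :=
    intervalIntegral.integral_nonneg hc1 fun t ht => hnn t ⟨by linarith [ht.1], ht.2⟩
  have h4 : ∫ t in c..(c + w), inner ℝ (HH hh hρ z) (TT hh hr (pt a b t)) = log 2 * w := by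
    have : ∫ t in c..(c + w), inner ℝ (HH hh hρ z) (TT hh hr (pt a b t)) = ∫ t in c..(c + w), log 2 := by
      apply intervalIntegral.integral_congr
      intro t ht
      rw [Set.uIcc_of_le (by linarith)] at ht
      exact hval t ⟨by linarith [ht.1], by linarith [ht.2]⟩ (hct t ht)
    rw [this]; simp; ring
  rw [h1, h4]; linarith

theorem inner_TT_YY_le {ρ r : ℝ} (hρ : 0 < ρ) (hr : 0 < r) {z a b : ℂ} (hab : InD (2 * r) a b)
    (h0 : 0 < ‖a - b‖) :
    |inner ℝ (TT hh hρ z) (YY hh hr a b)| ≤ 3 * ρ / r * (4 * (2 * r + 2 * ρ) / ‖a - b‖) := by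
  rw [inner_YY]
  apply int_bound (z := z) (by positivity) (by positivity) h0
  · intro t ht
    exact inner_TT_TT hh hρ hr (hab t ht)
  · intro t ht hfar
    exact inner_TT_TT_far hh hρ hr (hab t ht) hfar

theorem inner_YY_YY_le {ρ r : ℝ} (hρ : 0 < ρ) (hr : 0 < r) {a' b' a b : ℂ} (hab : InD (2 * r) a b)
    (h0 : 0 < ‖a - b‖) (hρr : ρ ≤ r) :
    |inner ℝ (YY hh hρ a' b') (YY hh hr a b)| ≤ 48 * ρ / ‖a - b‖ := by
  rw [real_inner_comm, inner_YY]
  have : ‖∫ t in (0 : ℝ)..1, inner ℝ (YY hh hr a b) (TT hh hρ (pt a' b' t))‖ ≤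
      48 * ρ / ‖a - b‖ * |1 - 0| := by
    apply intervalIntegral.norm_integral_le_of_norm_le_const
    intro t _
    rw [real_inner_comm, Real.norm_eq_abs]
    refine (inner_TT_YY_le hh hρ hr hab h0).trans ?_
    calc 3 * ρ / r * (4 * (2 * r + 2 * ρ) / ‖a - b‖) ≤ 3 * ρ / r * (4 * (2 * r + 2 * r) / ‖a - b‖) := by
          gcongr
      _ = 48 * ρ / ‖a - b‖ := by field_simp; norm_num
  simpa using this

theorem inner_TT_YY_far {ρ r : ℝ} (hρ : 0 < ρ) (hr : 0 < r) {z a b : ℂ} (hab : InD (2 * r) a b)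
    (hfar : ∀ t ∈ Set.Icc (0 : ℝ) 1, 2 * r + 2 * ρ ≤ ‖z - pt a b t‖) :
    inner ℝ (TT hh hρ z) (YY hh hr a b) = 0 := by
  rw [TT, inner_sub_left, inner_HH_YY_far hh hρ hr hab fun t ht => by linarith [hfar t ht],
    inner_HH_YY_far hh (mul_pos two_pos hρ) hr hab hfar, sub_zero]

end

end Pool.Agent.H964
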